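import Pool.Agent.V11302.FM.BMain

/-!
# A sparse set of primes detects geometric origin

Let `f` be any function. There is a sequence `T` of prime numbers, growing faster than prescribed by `f`,
such that for every number field `K`, every prime number `p`, every finite extension `E` of `ℚ_p`, every
continuous irreducible representation `ρ : G_K → GL_n(E)` and every finite family of continuous semisimple
representations `τ_c : G_K → GL_n(E)`, all unramified outside a finite set of primes: if for every Frobenius element `σ` of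
`G_K` above almost every `T i` the matrices `ρ(σ)` and `τ_c(σ)` have, for some index `c` (which may depend on
`σ`), the same eigenvalues up to roots of unity, then `ρ` is a quotient of `τ_c ⊗ π` for one index `c` and
a representation `π` of the Galois group of a finite extension of `K`. If `ρ` is absolutely irreducible on
the absolute Galois group of every finite extension, then `ρ` is the twist of `τ_c` by a character of finite
order.

So if all `τ_c` are subquotients of the étale cohomology of smooth projective varieties over `K` (up to Tate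
twists), then so is `ρ`. Nothing is assumed at the places above `p`. The set `T` is very thin: there is a
totally real field `L` of infinite degree, Galois and unramified at all finite places over a real quadratic
field, in which all the primes `T i` split completely.
-/

set_option autoImplicit false

namespace Pool.Agent.Results.MP_2e0e07_nt.GeometricAtSparsePrimes

open NumberField IntermediateField Module Kronecker

attribute [local instance 10] DivisionRing.toRatAlgebra

/-- the absolute Galois group of `ℚ` -/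
abbrev GQ : Type := Gal(AlgebraicClosure ℚ/ℚ)

/-- the ring of all algebraic integers -/
abbrev ZBar : Type := 𝓞 (AlgebraicClosure ℚ)

/-- `τ` lies in the inertia group at the maximal ideal `P` of the ring of all algebraic integers -/
def Inertia (P : Ideal ZBar) (τ : GQ) : Prop := ∀ x : ZBar, τ • x - x ∈ P

/-- `σ` is a (geometric) Frobenius element at the maximal ideal `P` above the prime number `q`: it induces
the inverse of `x ↦ x ^ q` on the residue field -/
def Frobenius (q : ℕ) (P : Ideal ZBar) (σ : GQ) : Prop := ∀ x : ZBar, x - (σ • x) ^ q ∈ P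

/-- `L` is a totally real Galois extension of infinite degree of the real quadratic field `k`, unramified at
all finite places, and a union of finite extensions of `ℚ` whose degrees are powers of two -/
structure UnramifiedTower (k L : IntermediateField ℚ (AlgebraicClosure ℚ)) : Prop where
  quadratic : finrank ℚ k = 2 ∧ ∃ s ∈ k,
    s ^ 2 = ((17 * 41 * 73 * 89 * 97 * 113 * 137 * 193 * 233 * 241 : ℕ) : AlgebraicClosure ℚ)
  le : k ≤ L
  infinite : ¬ FiniteDimensional ℚ L
  galois : ∀ σ : GQ, (∀ x ∈ k, σ x = x) → ∀ y ∈ L, σ y ∈ L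
  unramified : ∀ q : ℕ, q.Prime → ∀ P : Ideal ZBar, P.IsMaximal → (q : ZBar) ∈ P → ∀ τ : GQ,
    (∀ x ∈ k, τ x = x) → Inertia P τ → ∀ y ∈ L, τ y = y
  real : ∀ (φ : L →+* ℂ) (y : L), (φ y).im = 0
  two : ∀ y ∈ L, ∃ m : ℕ, finrank ℚ ℚ⟮y⟯ = 2 ^ m

/-- the prime number `q` is unramified and splits completely in `L`: all inertia elements and all Frobenius
elements above `q` fix `L` -/
def SplitsCompletely (q : ℕ) (L : IntermediateField ℚ (AlgebraicClosure ℚ)) : Prop :=
  ∀ P : Ideal ZBar, P.IsMaximal → (q : ZBar) ∈ P → ∀ σ : GQ, Inertia P σ ∨ Frobenius q P σ →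
    ∀ y ∈ L, σ y = y

section rep

variable {K : IntermediateField ℚ (AlgebraicClosure ℚ)} {p : ℕ} [Fact p.Prime]
  {E : IntermediateField ℚ_[p] (PadicAlgCl p)} {n : ℕ}

/-- `ρ` is continuous and unramified outside a finite set of primes -/
def AlmostUnramified (ρ : K.fixingSubgroup →* GL (Fin n) E) : Prop :=
  Continuous ρ ∧
  ∃ S : Finset ℕ, ∀ q : ℕ, q.Prime → q ∉ S → ∀ P : Ideal ZBar, P.IsMaximal → (q : ZBar) ∈ P →
    ∀ τ : K.fixingSubgroup, Inertia P τ → ρ τ = 1

/-- the subspace `W` is stable under `ρ` -/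
def IsStable (ρ : K.fixingSubgroup →* GL (Fin n) E) (W : Submodule E (Fin n → E)) : Prop :=
  ∀ g, ∀ w ∈ W, (ρ g : Matrix (Fin n) (Fin n) E).mulVec w ∈ W

/-- every stable subspace is zero or everything -/
def Irreducible (ρ : K.fixingSubgroup →* GL (Fin n) E) : Prop :=
  ∀ W : Submodule E (Fin n → E), IsStable ρ W → W = ⊥ ∨ W = ⊤

/-- every stable subspace has a stable complement -/
def Semisimple (ρ : K.fixingSubgroup →* GL (Fin n) E) : Prop :=
  ∀ W : Submodule E (Fin n → E), IsStable ρ W → ∃ W', IsStable ρ W' ∧ IsCompl W W'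

/-- `ρ` is absolutely irreducible on every open subgroup: the matrices of the elements of an open subgroup
span the space of all matrices (theorem of Burnside) -/
def StronglyIrreducible (ρ : K.fixingSubgroup →* GL (Fin n) E) : Prop :=
  ∀ V : Subgroup GQ, IsOpen (V : Set GQ) →
    Submodule.span E {X | ∃ σ : K.fixingSubgroup, (σ : GQ) ∈ V ∧
      X = (ρ σ : Matrix (Fin n) (Fin n) E)} = ⊤

/-- for all Frobenius elements `σ` of `G_K` above almost all `T i` there is an index `c` such that `ρ(σ)` and
`τ_c(σ)` have the same eigenvalues (with multiplicities) up to roots of unity: some powers with the same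
exponent `a ≥ 1` have the same characteristic polynomial -/
def AgreeAtAlmostAll (T : ℕ → ℕ) (ρ : K.fixingSubgroup →* GL (Fin n) E) {r : ℕ}
    (τ : Fin r → K.fixingSubgroup →* GL (Fin n) E) : Prop :=
  ∃ i₀ : ℕ, ∀ i ≥ i₀, ∀ P : Ideal ZBar, P.IsMaximal → (T i : ZBar) ∈ P →
    ∀ σ : K.fixingSubgroup, Frobenius (T i) P σ → ∃ c, ∃ a : ℕ, a ≠ 0 ∧
      ((ρ σ : Matrix (Fin n) (Fin n) E) ^ a).charpoly =
        ((τ c σ : Matrix (Fin n) (Fin n) E) ^ a).charpoly

/-- `ρ` is a quotient of `τ ⊗ π` for a representation `π` of the Galois group of a finite extension of `K`,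
i.e. a representation `π` of `G_K` which is trivial on an open subgroup -/
def IsQuotientUpToArtin (ρ τ : K.fixingSubgroup →* GL (Fin n) E) : Prop :=
  ∃ (d : ℕ) (π : K.fixingSubgroup →* GL (Fin d) E)
    (A : Matrix (Fin n) (Fin n × Fin d) E),
    (∃ V : Subgroup GQ, IsOpen (V : Set GQ) ∧ ∀ σ : K.fixingSubgroup, (σ : GQ) ∈ V → π σ = 1) ∧
    Function.Surjective A.mulVec ∧ ∀ σ, (ρ σ : Matrix (Fin n) (Fin n) E) * A =
      A * ((τ σ : Matrix (Fin n) (Fin n) E) ⊗ₖ (π σ : Matrix (Fin d) (Fin d) E))

/-- `ρ` is isomorphic to the twist of `τ` by a character `ε` of finite order -/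
def IsTwist (ρ τ : K.fixingSubgroup →* GL (Fin n) E) : Prop :=
  ∃ (Q : GL (Fin n) E) (ε : K.fixingSubgroup →* (E : Type)ˣ),
    (∃ V : Subgroup GQ, IsOpen (V : Set GQ) ∧ ∀ σ : K.fixingSubgroup, (σ : GQ) ∈ V → ε σ = 1) ∧
    ∀ σ, (ρ σ : Matrix (Fin n) (Fin n) E) =
      (ε σ : E) • ((Q : Matrix (Fin n) (Fin n) E) *
        (τ σ : Matrix (Fin n) (Fin n) E) *
        ((Q⁻¹ : GL (Fin n) E) : Matrix (Fin n) (Fin n) E))

end rep

/-- **Main result.** -/
theorem result (f : ℕ → ℕ) :
    ∃ (T : ℕ → ℕ) (k L : IntermediateField ℚ (AlgebraicClosure ℚ)),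
      (∀ i, (T i).Prime ∧ T i < T (i + 1) ∧ f (T i) < T (i + 1)) ∧
      UnramifiedTower k L ∧ (∀ i, SplitsCompletely (T i) L) ∧
      ∀ (K : IntermediateField ℚ (AlgebraicClosure ℚ)), FiniteDimensional ℚ K →
        ∀ (p : ℕ) [Fact p.Prime] (E : IntermediateField ℚ_[p] (PadicAlgCl p)),
        FiniteDimensional ℚ_[p] E → ∀ (n : ℕ) (ρ : K.fixingSubgroup →* GL (Fin n) E),
          AlmostUnramified ρ → Irreducible ρ → 0 < n →
          ∀ (r : ℕ) (τ : Fin r → K.fixingSubgroup →* GL (Fin n) E),
          (∀ c, AlmostUnramified (τ c) ∧ Semisimple (τ c)) → AgreeAtAlmostAll T ρ τ →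
          ∃ c, IsQuotientUpToArtin ρ (τ c) ∧ (StronglyIrreducible ρ → IsTwist ρ (τ c)) := by
  obtain ⟨T, k, L, hT1, hT2, htow, hrep⟩ := Pool.Agent.V11302.FM.mainB f
  refine ⟨T, k, L, fun i => ⟨hT1 i, ?_, ?_⟩, ⟨⟨htow.rank, htow.sqrt⟩, htow.le, htow.inf, htow.galois,
    htow.unr, htow.real, htow.two⟩, ?_, ?_⟩
  · have := hT2 i
    omega
  · have := hT2 i
    have := (hT1 i).pos
    omega
  · intro i P hP hTP σ hσ
    rcases hσ with hσ | hσ
    · exact htow.unrT i P hP hTP σ hσ
    · exact htow.split i P hP hTP σ hσ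
  · intro K hK p hp E hE n ρ hρ hirr hn r τ hτ hag
    obtain ⟨hρc, S, hS⟩ := hρ
    obtain ⟨i0, hi0⟩ := hag
    obtain ⟨c, d, π, A, h1, h2, h3, h4⟩ := hrep K.fixingSubgroup K.fixingSubgroup_isOpen p E hE n ρ hρc
      ⟨S, fun q hq hqS P hP hqP τ hτ hτP => hS q hq hqS P hP hqP ⟨τ, hτ⟩ hτP⟩
      (fun W hW => hirr W hW) hn r τ (fun c => (hτ c).1.1)
      (fun c => by
        obtain ⟨S', hS'⟩ := (hτ c).1.2
        exact ⟨S', fun q hq hqS P hP hqP t ht htP => hS' q hq hqS P hP hqP ⟨t, ht⟩ htP⟩)
      (fun c W hW => (hτ c).2 W hW)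
      ⟨i0, fun i hi P hP hTP σ hσ hσP => hi0 i hi P hP hTP ⟨σ, hσ⟩ hσP⟩
    exact ⟨c, ⟨d, π, A, h1, h2, h3⟩, fun hs => h4 hs⟩

end Pool.Agent.Results.MP_2e0e07_nt.GeometricAtSparsePrimes
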